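import Pool.Agent.H55.PM.Targets

/-!
# Module IN of the board pm_modules
-/

set_option autoImplicit false

namespace Pool.Agent.H85.PM

open Pool.Agent.H55.PM

lemma inj_tower : Function.Injective (fun b : ℕ => 2 ^ 2 ^ b) := by
  intro a b h
  exact Nat.pow_right_injective (le_refl 2) (Nat.pow_right_injective (le_refl 2) h)

theorem pf_IN : T_IN := by
  intro V hV hVc
  constructor
  · refine (hVc.image (inj_tower.injOn)).mono ?_
    rintro _ ⟨b, hb, rfl⟩
    refine ⟨2 ^ b, ?_, rfl⟩
    intro c hc
    rw [Nat.bitIndices_two_pow, List.mem_singleton] at hc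
    rw [hc]
    exact hb
  · refine (hV.image (inj_tower.injOn)).mono ?_
    rintro _ ⟨b, hb, rfl⟩
    refine ⟨by positivity, ?_⟩
    intro e he
    simp only [Nat.bitIndices_two_pow, List.mem_singleton] at he
    subst he
    intro c hc
    rw [Nat.bitIndices_two_pow, List.mem_singleton] at hc
    rw [hc]
    exact hb

end Pool.Agent.H85.PM
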