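import Pool.Agent.H55.PM.Targets

/-!
# Module NG of the board pm_modules
-/

set_option autoImplicit false

namespace Pool.Agent.H85.PM

open Pool.Agent.H55.PM

lemma log_tower (s : ℕ) : Real.log ((2 ^ 2 ^ s : ℕ) : ℝ) = 2 ^ s * Real.log 2 := by
  push_cast
  rw [Real.log_pow]
  push_cast
  ring

/-- exponential beats polynomial -/
lemma exists_large (c N : ℕ) : ∃ s : ℕ, N ≤ s ∧ 16 * (s + c) ^ 8 ≤ 2 ^ (3 * s + 2) := by
  have h := tendsto_pow_const_div_const_pow_of_one_lt 8 (r := (2 : ℝ)) (by norm_num)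
  have h1 := (h.eventually (gt_mem_nhds (show (0 : ℝ) < 1 by norm_num)))
  obtain ⟨n₀, hn₀⟩ := Filter.eventually_atTop.mp h1
  refine ⟨max N (max n₀ (c + 2)), le_max_left _ _, ?_⟩
  set s : ℕ := max N (max n₀ (c + 2)) with hs
  have hs1 : n₀ ≤ s := le_trans (le_max_left _ _) (le_max_right _ _)
  have hs2 : c + 2 ≤ s := le_trans (le_max_right _ _) (le_max_right _ _)
  have h2 := hn₀ (s + c) (by omega)
  have h3 : ((s + c : ℕ) : ℝ) ^ 8 < 2 ^ (s + c) := by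
    rwa [div_lt_one (by positivity)] at h2
  have h4 : (s + c) ^ 8 < 2 ^ (s + c) := by exact_mod_cast h3
  calc 16 * (s + c) ^ 8 ≤ 2 ^ 4 * 2 ^ (s + c) := by
        have : (16 : ℕ) = 2 ^ 4 := by norm_num
        rw [this]
        exact Nat.mul_le_mul_left _ h4.le
    _ = 2 ^ (4 + (s + c)) := (pow_add 2 4 (s + c)).symm
    _ ≤ 2 ^ (3 * s + 2) := Nat.pow_le_pow_right (by norm_num) (by omega)

theorem pf_NG (hGP : T_GP) (hN1 : T_N1) : T_NG := by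
  intro A hA hC M hM hMpos hG
  obtain ⟨C1, hC1, hN⟩ := hN1 A M hG
  obtain ⟨⟨N, hNpos⟩, -⟩ := hG
  obtain ⟨s₀, hs₀⟩ := hC (8 * C1 + 8)
  obtain ⟨m₀, hm₀⟩ := hM.nonempty
  set Y₀ : ℕ := max 2 m₀ with hY₀
  have hl2 : 0 < Real.log 2 := Real.log_pos (by norm_num)
  have hY₀c : 1 ≤ cnt M Y₀ := by
    unfold cnt
    exact (Set.ncard_pos ((Set.finite_Icc 1 Y₀).subset Set.inter_subset_right)).mpr
      ⟨m₀, hm₀, hMpos m₀ hm₀, le_max_right _ _⟩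
  obtain ⟨C2, hC2⟩ := exists_nat_ge (C1 + C1 * Real.log Y₀ / Real.log 2)
  obtain ⟨s, hs, hbig⟩ := exists_large (Nat.log 2 C2 + 8) (max s₀ N)
  have hs0 : s₀ ≤ s := le_trans (le_max_left _ _) hs
  have hsN : N ≤ s := le_trans (le_max_right _ _) hs
  set X : ℕ := 2 ^ 2 ^ (s + 2) with hX
  set a : ℕ := cnt A X with ha
  set D : ℕ := cnt M X with hD
  have hX2 : 2 ≤ X := by
    calc 2 = 2 ^ 1 := by norm_num
      _ ≤ 2 ^ 2 ^ (s + 2) := Nat.pow_le_pow_right (by norm_num) Nat.one_le_two_pow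
  have hlogX : Real.log (X : ℝ) = 2 ^ (s + 2) * Real.log 2 := log_tower (s + 2)
  have hp2 : (0 : ℝ) < 2 ^ (s + 2) := by positivity
  -- bound for D
  have h1 : (a : ℝ) * Real.log (1 + D) ≤ C1 * (Real.log X + Real.log X) := hN X X hX2 hX2
  have h2 : (8 * C1 + 8) * 2 ^ (s + 2) ≤ ((s + 2 : ℕ) : ℝ) * a := hs₀ (s + 2) (by omega)
  have hlogD : 0 ≤ Real.log (1 + D) := Real.log_nonneg (by
    have : (0 : ℝ) ≤ D := Nat.cast_nonneg D
    linarith)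
  have h3 : (8 * C1 + 8) * Real.log (1 + D) ≤ 2 * C1 * (((s + 2 : ℕ) : ℝ) * Real.log 2) := by
    have e1 : (8 * C1 + 8) * 2 ^ (s + 2) * Real.log (1 + D)
        ≤ ((s + 2 : ℕ) : ℝ) * a * Real.log (1 + D) := mul_le_mul_of_nonneg_right h2 hlogD
    have e2 : ((s + 2 : ℕ) : ℝ) * (a * Real.log (1 + D))
        ≤ ((s + 2 : ℕ) : ℝ) * (C1 * (Real.log X + Real.log X)) :=
      mul_le_mul_of_nonneg_left h1 (Nat.cast_nonneg _)
    rw [hlogX] at e2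
    have e3 : 2 ^ (s + 2) * ((8 * C1 + 8) * Real.log (1 + D))
        ≤ 2 ^ (s + 2) * (2 * C1 * (((s + 2 : ℕ) : ℝ) * Real.log 2)) := by
      calc 2 ^ (s + 2) * ((8 * C1 + 8) * Real.log (1 + D))
          = (8 * C1 + 8) * 2 ^ (s + 2) * Real.log (1 + D) := by ring
        _ ≤ ((s + 2 : ℕ) : ℝ) * a * Real.log (1 + D) := e1
        _ = ((s + 2 : ℕ) : ℝ) * (a * Real.log (1 + D)) := by ring
        _ ≤ _ := e2
        _ = 2 ^ (s + 2) * (2 * C1 * (((s + 2 : ℕ) : ℝ) * Real.log 2)) := by ring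
    exact le_of_mul_le_mul_left e3 hp2
  have h4 : 4 * Real.log (1 + D) ≤ ((s + 2 : ℕ) : ℝ) * Real.log 2 := by
    have hsl : 0 ≤ ((s + 2 : ℕ) : ℝ) * Real.log 2 := by positivity
    by_contra hcon
    push Not at hcon
    nlinarith
  have h5 : (1 + D) ^ 4 ≤ 2 ^ (s + 2) := by
    have e1 : Real.log (((1 + D) ^ 4 : ℕ) : ℝ) ≤ Real.log ((2 ^ (s + 2) : ℕ) : ℝ) := by
      push_cast
      rw [Real.log_pow, Real.log_pow]
      push_cast at h4 ⊢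
      exact h4
    have e2 : (((1 + D) ^ 4 : ℕ) : ℝ) ≤ ((2 ^ (s + 2) : ℕ) : ℝ) :=
      (Real.log_le_log_iff (by positivity) (by positivity)).mp e1
    exact_mod_cast e2
  -- bound for a
  have h6 : (a : ℝ) ≤ C2 * 2 ^ (s + 2) := by
    have e1 := hN X Y₀ hX2 (le_max_left _ _)
    have e2 : Real.log 2 ≤ Real.log (1 + (cnt M Y₀ : ℝ)) := by
      apply Real.log_le_log (by norm_num)
      have : (1 : ℝ) ≤ cnt M Y₀ := by exact_mod_cast hY₀c
      linarith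
    have e3 : (a : ℝ) * Real.log 2 ≤ C1 * (Real.log X + Real.log Y₀) :=
      le_trans (mul_le_mul_of_nonneg_left e2 (Nat.cast_nonneg _)) e1
    rw [hlogX] at e3
    have hY0 : 0 ≤ Real.log (Y₀ : ℝ) := Real.log_natCast_nonneg _
    have hp1 : (1 : ℝ) ≤ 2 ^ (s + 2) := one_le_pow₀ (by norm_num)
    have e4 : (a : ℝ) ≤ C1 * 2 ^ (s + 2) + C1 * Real.log Y₀ / Real.log 2 := by
      rw [← sub_nonneg]
      have : C1 * 2 ^ (s + 2) + C1 * Real.log Y₀ / Real.log 2 - a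
          = (C1 * (2 ^ (s + 2) * Real.log 2 + Real.log Y₀) - a * Real.log 2) / Real.log 2 := by
        field_simp
      rw [this]
      exact div_nonneg (by linarith) hl2.le
    have e5 : C1 * Real.log Y₀ / Real.log 2 ≤ C1 * Real.log Y₀ / Real.log 2 * 2 ^ (s + 2) :=
      le_mul_of_one_le_right (by positivity) hp1
    calc (a : ℝ) ≤ C1 * 2 ^ (s + 2) + C1 * Real.log Y₀ / Real.log 2 * 2 ^ (s + 2) := by linarith
      _ = (C1 + C1 * Real.log Y₀ / Real.log 2) * 2 ^ (s + 2) := by ring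
      _ ≤ C2 * 2 ^ (s + 2) := mul_le_mul_of_nonneg_right hC2 hp2.le
  have h7 : a ≤ C2 * 2 ^ (s + 2) := by exact_mod_cast h6
  have h8 : Nat.log 2 a + 1 ≤ s + (Nat.log 2 C2 + 4) := by
    have e1 : a < 2 ^ (s + (Nat.log 2 C2 + 4)) := by
      have e2 : C2 < 2 ^ (Nat.log 2 C2 + 1) := Nat.lt_pow_succ_log_self (by norm_num) C2
      calc a ≤ C2 * 2 ^ (s + 2) := h7
        _ < 2 ^ (Nat.log 2 C2 + 1) * 2 ^ (s + 2) := Nat.mul_lt_mul_of_pos_right e2 (by positivity)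
        _ = 2 ^ (Nat.log 2 C2 + 1 + (s + 2)) := by rw [← pow_add]
        _ ≤ 2 ^ (s + (Nat.log 2 C2 + 4)) := Nat.pow_le_pow_right (by norm_num) (by omega)
    have e3 : Nat.log 2 a < s + (Nat.log 2 C2 + 4) := Nat.log_lt_of_lt_pow' (by omega) e1
    omega
  -- the final contradiction
  have hn0 : N ≤ 2 ^ 2 ^ (s + 1) := by
    have e1 : s + 1 < 2 ^ (s + 1) := Nat.lt_two_pow_self
    have e2 : 2 ^ (s + 1) < 2 ^ 2 ^ (s + 1) := Nat.lt_two_pow_self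
    omega
  have h9 : 2 ^ (s + 1) / (Nat.log 2 a + 1) ≤ 2 * (s + 4) * D :=
    hGP A M N s hA hNpos hn0
  set c : ℕ := Nat.log 2 C2 + 8 with hc
  have h10 : 2 ^ (s + 1) < (s + c) * (2 * (s + c) * (1 + D)) := by
    have e1 : 2 ^ (s + 1) < (Nat.log 2 a + 1) * (2 ^ (s + 1) / (Nat.log 2 a + 1) + 1) :=
      Nat.lt_mul_div_succ _ (by omega)
    have e2 : 2 ^ (s + 1) / (Nat.log 2 a + 1) + 1 ≤ 2 * (s + c) * (1 + D) := by
      calc 2 ^ (s + 1) / (Nat.log 2 a + 1) + 1 ≤ 2 * (s + 4) * D + 2 * (s + c) := by omega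
        _ ≤ 2 * (s + c) * D + 2 * (s + c) := by
            have : 2 * (s + 4) * D ≤ 2 * (s + c) * D := Nat.mul_le_mul_right _ (by omega)
            omega
        _ = 2 * (s + c) * (1 + D) := by ring
    calc 2 ^ (s + 1) < (Nat.log 2 a + 1) * (2 ^ (s + 1) / (Nat.log 2 a + 1) + 1) := e1
      _ ≤ (s + c) * (2 * (s + c) * (1 + D)) := Nat.mul_le_mul (by omega) e2
  have h11 : (2 ^ (s + 1)) ^ 4 < 16 * (s + c) ^ 8 * 2 ^ (s + 2) := by
    calc (2 ^ (s + 1)) ^ 4 < ((s + c) * (2 * (s + c) * (1 + D))) ^ 4 :=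
          Nat.pow_lt_pow_left h10 (by norm_num)
      _ = 16 * (s + c) ^ 8 * (1 + D) ^ 4 := by ring
      _ ≤ 16 * (s + c) ^ 8 * 2 ^ (s + 2) := Nat.mul_le_mul_left _ h5
  have h12 : 16 * (s + c) ^ 8 * 2 ^ (s + 2) ≤ (2 ^ (s + 1)) ^ 4 := by
    calc 16 * (s + c) ^ 8 * 2 ^ (s + 2) ≤ 2 ^ (3 * s + 2) * 2 ^ (s + 2) :=
          Nat.mul_le_mul_right _ hbig
      _ = (2 ^ (s + 1)) ^ 4 := by rw [← pow_add, ← pow_mul]; congr 1; ring
  exact absurd h11 (not_lt.mpr h12)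

end Pool.Agent.H85.PM
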